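import Mathlib
import Pool.Agent.H7.QHook

/-! The coefficientwise inequality of the problem, for every positive `L`. -/

namespace Pool.Agent.Results.MP_acbfbf_co.Ineq

open PowerSeries Finset Pool.Agent.H7.QHook

/-- The `q`-Pochhammer symbol `(a; q)_n`, the product of `1 - a q^k` over `0 ≤ k < n`. -/
noncomputable def poch (a q : ℚ⟦X⟧) (n : ℕ) : ℚ⟦X⟧ := ∏ k ∈ range n, (1 - a * q ^ k)

/-- The Gaussian binomial coefficient in base `q`: `(q;q)_n / ((q;q)_m (q;q)_(n-m))` for integers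
`0 ≤ m ≤ n`, and `0` for all other integer pairs. -/
noncomputable def gauss (q : ℚ⟦X⟧) (n m : ℤ) : ℚ⟦X⟧ :=
  if 0 ≤ m ∧ m ≤ n then
    poch q q n.toNat * (poch q q m.toNat * poch q q (n - m).toNat)⁻¹
  else 0

theorem cc_poch (e f : ℕ) (he : 0 < e) (n : ℕ) :
    constantCoeff (poch (X ^ e) (X ^ f) n) = 1 := by
  unfold poch
  rw [map_prod]
  exact prod_eq_one fun k _ => by simp [he.ne']

theorem gauss_mul (e : ℕ) (he : 0 < e) (M : ℕ) :
    gauss (X ^ e) (((M + 4 : ℕ) : ℤ) - 2) 2 * ((1 - X ^ e) * (1 - X ^ (2 * e))) =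
      (1 - X ^ (e * (M + 2))) * (1 - X ^ (e * (M + 1))) := by
  unfold gauss
  rw [if_pos (by constructor <;> omega)]
  have e1 : (((M + 4 : ℕ) : ℤ) - 2).toNat = M + 2 := by omega
  have e2 : (2 : ℤ).toNat = 2 := rfl
  have e3 : (((M + 4 : ℕ) : ℤ) - 2 - 2).toNat = M := by omega
  rw [e1, e2, e3]
  have hc : constantCoeff (poch (X ^ e) (X ^ e) 2 * poch (X ^ e) (X ^ e) M) ≠ 0 := by
    rw [map_mul, cc_poch e e he, cc_poch e e he]; norm_num
  have h := PowerSeries.mul_inv_cancel _ hc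
  have p2 : poch (X ^ e) (X ^ e) 2 = (1 - X ^ e) * (1 - X ^ (2 * e)) := by
    unfold poch
    rw [prod_range_succ, prod_range_succ, prod_range_zero]; ring
  have p3 : poch (X ^ e) (X ^ e) (M + 2) = poch (X ^ e) (X ^ e) M *
      ((1 - X ^ (e * (M + 2))) * (1 - X ^ (e * (M + 1)))) := by
    unfold poch
    rw [prod_range_succ, prod_range_succ]; ring
  rw [p3, ← p2]
  linear_combination ((1 - X ^ (e * (M + 2))) * (1 - X ^ (e * (M + 1))) : ℚ⟦X⟧) * h

theorem poch_inv (L : ℕ) : (poch X (X ^ 2) L)⁻¹ = oddGF L := by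
  have hc : constantCoeff (poch X (X ^ 2) L) ≠ 0 := by
    have := cc_poch 1 2 (by norm_num) L
    rw [pow_one] at this
    rw [this]; norm_num
  have h := PowerSeries.mul_inv_cancel _ hc
  have h2 := oddGF_mul L
  have h3 : poch X (X ^ 2) L = ∏ k ∈ range L, (1 - X ^ (2 * k + 1)) := by
    unfold poch
    exact prod_congr rfl fun k _ => by ring
  rw [← h3] at h2
  linear_combination (oddGF L) * h - (poch X (X ^ 2) L)⁻¹ * h2

theorem dist_split (M : ℕ) :
    poch (-X ^ 3) X M * ((1 + X) * (1 + X ^ 2)) =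
      distGF M * ((1 + X ^ (M + 1)) * (1 + X ^ (M + 2))) := by
  unfold poch distGF
  induction M with
  | zero => simp
  | succ M ih =>
    rw [prod_range_succ, prod_range_succ]
    linear_combination (1 + X ^ (M + 3) : ℚ⟦X⟧) * ih

theorem result (L : ℕ) (hL : 0 < L) (n : ℕ) :
    coeff n (X * gauss X ((L : ℤ) - 2) 2 * poch (-X ^ 3) X (L - 4)) ≤
      coeff n ((poch X (X ^ 2) L)⁻¹ *
        ((1 - X ^ (2 * L - 2)) * (1 - X ^ 2)⁻¹ + X ^ 3 * gauss (X ^ 2) ((L : ℤ) - 2) 2)) := by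
  rw [poch_inv]
  have i2 := one_sub_mul_inv 2 (by norm_num)
  by_cases h : L ≤ 3
  · have z : ∀ q : ℚ⟦X⟧, gauss q ((L : ℤ) - 2) 2 = 0 := fun q => by
      unfold gauss
      rw [if_neg (by omega)]
    rw [z, z]
    have hA : (1 - X ^ (2 * L - 2) : ℚ⟦X⟧) * (1 - X ^ 2)⁻¹ = gs 2 (L - 1) := by
      have := gs_mul 2 (L - 1)
      rw [show 2 * (L - 1) = 2 * L - 2 by omega] at this
      linear_combination (-(1 - X ^ 2 : ℚ⟦X⟧)⁻¹) * this + (gs 2 (L - 1)) * i2
    rw [hA]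
    simpa using ((NN_oddGF L).mul (NN_gs 2 (L - 1))) n
  · obtain ⟨M, rfl⟩ : ∃ M, L = M + 4 := ⟨L - 4, by omega⟩
    have g1 := gauss_mul 1 (by norm_num) M
    have g2 := gauss_mul 2 (by norm_num) M
    rw [pow_one] at g1
    have hA : (1 - X ^ (2 * (M + 4) - 2) : ℚ⟦X⟧) * (1 - X ^ 2)⁻¹ * (1 - X ^ 2) =
        1 - X ^ (2 * M + 6) := by
      rw [show 2 * (M + 4) - 2 = 2 * M + 6 by omega]
      linear_combination (1 - X ^ (2 * M + 6) : ℚ⟦X⟧) * i2
    have hB : gauss (X ^ 2) (((M + 4 : ℕ) : ℤ) - 2) 2 * ((1 - X ^ 2) * (1 - X ^ 4)) =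
        (1 - X ^ (2 * M + 4)) * (1 - X ^ (2 * M + 2)) := by
      linear_combination g2
    have hc := core M _ _ hA hB n
    have hR : gauss X (((M + 4 : ℕ) : ℤ) - 2) 2 * poch (-X ^ 3) X M =
        gauss (X ^ 2) (((M + 4 : ℕ) : ℤ) - 2) 2 * distGF M := by
      apply mul_right_cancel₀ (mul_ne_zero (one_sub_ne 2 (by norm_num)) (one_sub_ne 4 (by norm_num)))
      have d := dist_split M
      linear_combination (poch (-X ^ 3) X M * ((1 + X) * (1 + X ^ 2))) * g1 +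
        ((1 - X ^ (M + 2)) * (1 - X ^ (M + 1)) : ℚ⟦X⟧) * d - distGF M * hB
    rw [map_sub, sub_nonneg] at hc
    rw [show M + 4 - 4 = M by omega, mul_assoc X, hR, ← mul_assoc]
    exact hc

end Pool.Agent.Results.MP_acbfbf_co.Ineq
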